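import Mathlib
import Pool.Agent.R2.CHerm

/-!
# A finite lift with larger magneto-spectral height (MP_cbccc2_co, Q1)
-/

set_option autoImplicit false

open Finset

namespace Pool.Agent.Results.MP_cbccc2_co.CubeLift

/-! ### Definitions -/

/-- a magnetic potential -/
structure Potential {V : Type} (G : SimpleGraph V) where
  /-- the value on the oriented edge `(x, y)` -/
  val : V → V → ℂ
  norm_one : ∀ x y, G.Adj x y → ‖val x y‖ = 1
  conj : ∀ x y, G.Adj x y → val y x = star (val x y)

/-- the magnetic Laplacian -/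
noncomputable def lap {V : Type} [Fintype V] {G : SimpleGraph V} (s : Potential G) (f : V → ℂ)
    (x : V) : ℂ :=
  ∑ y, open Classical in if G.Adj x y then f x - s.val x y * f y else 0

/-- the set of (real) eigenvalues of the magnetic Laplacian -/
def eigs {V : Type} [Fintype V] {G : SimpleGraph V} (s : Potential G) : Set ℝ :=
  {m | ∃ f : V → ℂ, f ≠ 0 ∧ ∀ x, lap s f x = m * f x}

/-- the smallest eigenvalue -/
noncomputable def lam1 {V : Type} [Fintype V] {G : SimpleGraph V} (s : Potential G) : ℝ :=
  sInf (eigs s)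

/-- the magneto-spectral height -/
noncomputable def nu {V : Type} [Fintype V] (G : SimpleGraph V) : ℝ :=
  sSup (Set.range fun s : Potential G => lam1 s)

/-- `p` is a finite lift (covering) of `G` by `H` -/
structure IsLift {V W : Type} (H : SimpleGraph W) (G : SimpleGraph V) (p : W → V) : Prop where
  surj : Function.Surjective p
  hom : ∀ x y, H.Adj x y → G.Adj (p x) (p y)
  bij : ∀ x, Set.BijOn p (H.neighborSet x) (G.neighborSet (p x))

/-! ### Cayley graphs of elementary abelian 2-groups with nine generators -/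

section cay

variable {m : ℕ}

abbrev E (m : ℕ) : Type := Fin m → ZMod 2

theorem two (x : E m) : x + x = 0 := by
  funext i
  have : ∀ a : ZMod 2, a + a = 0 := by decide
  exact this (x i)

theorem add_two (x y : E m) : x + y + y = x := by rw [add_assoc, two, add_zero]

/-- the Cayley graph of `E m` with generators `g i` -/
def cay (g : Fin 9 → E m) (hg : ∀ i, g i ≠ 0) : SimpleGraph (E m) where
  Adj x y := ∃ i, y = x + g i
  symm := ⟨by rintro x y ⟨i, rfl⟩; exact ⟨i, (add_two _ _).symm⟩⟩
  loopless := ⟨by rintro x ⟨i, hi⟩; exact hg i (by simpa using hi)⟩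

variable {g : Fin 9 → E m} {hg : ∀ i, g i ≠ 0}

theorem adj_add (x : E m) (i : Fin 9) : (cay g hg).Adj x (x + g i) := ⟨i, rfl⟩

theorem sum_nbr (hinj : Function.Injective g) {M : Type} [AddCommMonoid M] (x : E m)
    (φ : E m → M) :
    (∑ y, open Classical in if (cay g hg).Adj x y then φ y else 0) = ∑ i, φ (x + g i) := by
  classical
  have h1 : ∑ i, φ (x + g i) = ∑ y ∈ univ.image (fun i => x + g i), φ y := by
    rw [Finset.sum_image]
    intro i _ j _ h
    exact hinj (add_left_cancel h)
  rw [h1, ← Finset.sum_filter]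
  apply Finset.sum_congr _ (fun _ _ => rfl)
  ext y
  simp only [mem_filter, mem_univ, true_and, mem_image]
  constructor
  · rintro ⟨i, hi⟩; exact ⟨i, hi.symm⟩
  · rintro ⟨i, hi⟩; exact ⟨i, hi.symm⟩

variable (s : Potential (cay g hg))

/-- the value of the potential on the edge from `x` in direction `i` -/
def sv (x : E m) (i : Fin 9) : ℂ := s.val x (x + g i)

theorem sv_norm (x : E m) (i : Fin 9) : ‖sv s x i‖ = 1 := s.norm_one _ _ (adj_add x i)

theorem lap_eq (hinj : Function.Injective g) (f : E m → ℂ) (x : E m) :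
    lap s f x = 9 * f x - ∑ i, sv s x i * f (x + g i) := by
  unfold lap
  rw [sum_nbr hinj x (fun y => f x - s.val x y * f y), Finset.sum_sub_distrib]
  simp [sv]

/-- all eigenvalues lie in `[0, 18]` -/
theorem eig_range (hinj : Function.Injective g) {μ : ℝ} (hμ : μ ∈ eigs s) : |9 - μ| ≤ 9 := by
  obtain ⟨f, hf, h⟩ := hμ
  obtain ⟨x, hx⟩ := Finite.exists_max (fun x => ‖f x‖)
  have hpos : 0 < ‖f x‖ := by
    rw [norm_pos_iff]
    intro h0
    apply hf
    funext y
    have := hx y
    rw [h0, norm_zero] at this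
    exact norm_le_zero_iff.1 this
  have h1 := h x
  rw [lap_eq s hinj] at h1
  have h2 : ((9 - μ : ℝ) : ℂ) * f x = ∑ i, sv s x i * f (x + g i) := by
    push_cast
    linear_combination h1
  have h3 : |9 - μ| * ‖f x‖ ≤ 9 * ‖f x‖ := by
    calc |9 - μ| * ‖f x‖ = ‖((9 - μ : ℝ) : ℂ) * f x‖ := by
          rw [norm_mul, Complex.norm_real, Real.norm_eq_abs]
      _ = ‖∑ i, sv s x i * f (x + g i)‖ := by rw [h2]
      _ ≤ ∑ i, ‖sv s x i * f (x + g i)‖ := norm_sum_le _ _
      _ ≤ ∑ _i : Fin 9, ‖f x‖ := by
          refine Finset.sum_le_sum fun i _ => ?_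
          rw [norm_mul, sv_norm, one_mul]
          exact hx _
      _ = 9 * ‖f x‖ := by simp
  exact le_of_mul_le_mul_right h3 hpos

theorem eigs_bddBelow (hinj : Function.Injective g) : BddBelow (eigs s) := by
  refine ⟨0, fun μ hμ => ?_⟩
  have := (abs_le.1 (eig_range s hinj hμ)).2
  linarith

/-- the adjacency matrix with the potential -/
noncomputable def amat : Matrix (E m) (E m) ℂ :=
  Matrix.of fun x y => open Classical in if (cay g hg).Adj x y then s.val x y else 0

theorem amat_herm : (amat s).IsHermitian := by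
  ext x y
  simp only [amat, Matrix.conjTranspose_apply, Matrix.of_apply]
  by_cases h : (cay g hg).Adj x y
  · rw [if_pos h, if_pos h.symm, s.conj x y h, star_star]
  · rw [if_neg h, if_neg (fun h' => h h'.symm), star_zero]

theorem amat_mul (hinj : Function.Injective g) (f : E m → ℂ) (x : E m) :
    ∑ y, amat s x y * f y = ∑ i, sv s x i * f (x + g i) := by
  have h1 : ∀ y, amat s x y * f y
      = (open Classical in if (cay g hg).Adj x y then s.val x y * f y else 0) := by
    intro y
    simp only [amat, Matrix.of_apply]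
    by_cases h : (cay g hg).Adj x y
    · rw [if_pos h, if_pos h]
    · rw [if_neg h, if_neg h, zero_mul]
  rw [Finset.sum_congr rfl (fun y _ => h1 y), sum_nbr hinj x (fun y => s.val x y * f y)]
  rfl

theorem eig_mem (hinj : Function.Injective g) (i : E m) :
    9 - (amat_herm s).eigenvalues i ∈ eigs s := by
  refine ⟨fun x => (amat_herm s).eigenvectorBasis i x, R2.CHerm.basis_ne _ _ i, fun x => ?_⟩
  rw [lap_eq s hinj, ← amat_mul s hinj, R2.CHerm.basis_eig]
  push_cast
  ring

theorem eigs_nonempty (hinj : Function.Injective g) : (eigs s).Nonempty :=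
  ⟨_, eig_mem s hinj 0⟩

theorem lam1_le (hinj : Function.Injective g) : lam1 s ≤ 18 := by
  have h := eig_mem s hinj 0
  have h1 : lam1 s ≤ 9 - (amat_herm s).eigenvalues 0 := csInf_le (eigs_bddBelow s hinj) h
  have h2 := (abs_le.1 (eig_range s hinj h)).1
  linarith

/-! ### Holonomy -/

/-- product of the potential along the path from `u` given by the word `l` -/
def hol : E m → List (Fin 9) → ℂ
  | _, [] => 1
  | u, i :: l => sv s u i * hol (u + g i) l

theorem hol_norm (u : E m) (l : List (Fin 9)) : ‖hol s u l‖ = 1 := by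
  induction l generalizing u with
  | nil => simp [hol]
  | cons i l ih => rw [hol, norm_mul, sv_norm, ih, one_mul]

theorem hol_append (u : E m) (l l' : List (Fin 9)) :
    hol s u (l ++ l') = hol s u l * hol s (u + (l.map g).sum) l' := by
  induction l generalizing u with
  | nil => simp [hol]
  | cons i l ih =>
    rw [List.cons_append, hol, ih, hol, List.map_cons, List.sum_cons, mul_assoc, add_assoc]

/-- the number of letters of `l` different from `i` -/
def cnt (i : Fin 9) (l : List (Fin 9)) : ℕ := (l.filter fun j => j != i).length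

theorem move (δ : ℝ) (hδ : ∀ u i j, i ≠ j →
      ‖sv s u i * sv s (u + g i) j + sv s u j * sv s (u + g j) i‖ ≤ δ)
    (i : Fin 9) (w r : List (Fin 9)) (u : E m) :
    ‖hol s u (i :: (w ++ r)) - (-1) ^ cnt i w * hol s u (w ++ i :: r)‖ ≤ cnt i w * δ := by
  induction w generalizing u with
  | nil => simp [cnt]
  | cons j w ih =>
    by_cases hij : j = i
    · subst hij
      have h1 : cnt j (j :: w) = cnt j w := by simp [cnt]
      rw [h1]
      have h2 := ih (u + g j)
      have h3 : hol s u (j :: ((j :: w) ++ r)) - (-1) ^ cnt j w * hol s u ((j :: w) ++ j :: r)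
          = sv s u j * (hol s (u + g j) (j :: (w ++ r))
            - (-1) ^ cnt j w * hol s (u + g j) (w ++ j :: r)) := by
        simp only [List.cons_append, hol]
        ring
      rw [h3, norm_mul, sv_norm, one_mul]
      exact h2
    · have h1 : cnt i (j :: w) = cnt i w + 1 := by simp [cnt, hij]
      rw [h1]
      have h2 := ih (u + g j)
      have h4 : ‖hol s u (i :: j :: (w ++ r)) + hol s u (j :: i :: (w ++ r))‖ ≤ δ := by
        have e1 : hol s u (i :: j :: (w ++ r)) + hol s u (j :: i :: (w ++ r))
            = (sv s u i * sv s (u + g i) j + sv s u j * sv s (u + g j) i)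
              * hol s (u + g i + g j) (w ++ r) := by
          simp only [hol]
          rw [add_right_comm u (g j) (g i)]
          ring
        rw [e1, norm_mul, hol_norm, mul_one]
        exact hδ u i j (fun h => hij h.symm)
      have h5 : hol s u (i :: ((j :: w) ++ r)) - (-1) ^ (cnt i w + 1) * hol s u ((j :: w) ++ i :: r)
          = (hol s u (i :: j :: (w ++ r)) + hol s u (j :: i :: (w ++ r)))
            - sv s u j * (hol s (u + g j) (i :: (w ++ r))
              - (-1) ^ cnt i w * hol s (u + g j) (w ++ i :: r)) := by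
        simp only [List.cons_append, hol]
        ring
      rw [h5]
      calc ‖_ - _‖ ≤ ‖hol s u (i :: j :: (w ++ r)) + hol s u (j :: i :: (w ++ r))‖
            + ‖sv s u j * (hol s (u + g j) (i :: (w ++ r))
              - (-1) ^ cnt i w * hol s (u + g j) (w ++ i :: r))‖ := norm_sub_le _ _
        _ ≤ δ + cnt i w * δ := by
            apply add_le_add h4
            rw [norm_mul, sv_norm, one_mul]
            exact h2
        _ = ((cnt i w + 1 : ℕ) : ℝ) * δ := by push_cast; ring

/-- total number of crossings of different letters -/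
def tot (a b : List (Fin 9)) : ℕ := (a.map fun i => cnt i b).sum

theorem moveWord (δ : ℝ) (hδ : ∀ u i j, i ≠ j →
      ‖sv s u i * sv s (u + g i) j + sv s u j * sv s (u + g j) i‖ ≤ δ)
    (a b r : List (Fin 9)) (u : E m) :
    ‖hol s u (a ++ (b ++ r)) - (-1) ^ tot a b * hol s u (b ++ (a ++ r))‖ ≤ tot a b * δ := by
  induction a generalizing u with
  | nil => simp [tot]
  | cons i a ih =>
    have h1 : tot (i :: a) b = cnt i b + tot a b := by simp [tot]
    have h2 := ih (u + g i)
    have h3 := move s δ hδ i b (a ++ r) u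
    have h5 : hol s u ((i :: a) ++ (b ++ r)) - (-1) ^ (cnt i b + tot a b) * hol s u (b ++ ((i :: a) ++ r))
        = sv s u i * (hol s (u + g i) (a ++ (b ++ r))
            - (-1) ^ tot a b * hol s (u + g i) (b ++ (a ++ r)))
          + (-1) ^ tot a b * (hol s u (i :: (b ++ (a ++ r)))
            - (-1) ^ cnt i b * hol s u (b ++ i :: (a ++ r))) := by
      simp only [List.cons_append, hol]
      ring
    rw [h1, h5]
    calc ‖_ + _‖ ≤ ‖sv s u i * (hol s (u + g i) (a ++ (b ++ r))
            - (-1) ^ tot a b * hol s (u + g i) (b ++ (a ++ r)))‖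
          + ‖(-1) ^ tot a b * (hol s u (i :: (b ++ (a ++ r)))
            - (-1) ^ cnt i b * hol s u (b ++ i :: (a ++ r)))‖ := norm_add_le _ _
      _ ≤ tot a b * δ + cnt i b * δ := by
          apply add_le_add
          · rw [norm_mul, sv_norm, one_mul]
            exact h2
          · rw [norm_mul, norm_pow, norm_neg, norm_one, one_pow, one_mul]
            exact h3
      _ = ((cnt i b + tot a b : ℕ) : ℝ) * δ := by push_cast; ring

/-! ### Small top eigenvalue gives almost anticommuting directions -/

theorem near (hinj : Function.Injective g)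
    (hpair : ∀ i j k l : Fin 9, i ≠ j → g i + g j = g k + g l → (k = i ∧ l = j) ∨ (k = j ∧ l = i))
    (c : ℝ) (hc : ∀ i, |(amat_herm s).eigenvalues i| ≤ c) (u : E m) (i j : Fin 9) (hij : i ≠ j) :
    ‖sv s u i * sv s (u + g i) j + sv s u j * sv s (u + g j) i‖ ^ 2 ≤ 9 * c ^ 2 - 81 := by
  set v : E m := u + g i + g j with hv
  have huv : u ≠ v := by
    intro h
    have h1 : g i + g j = 0 := by
      have : u + 0 = u + (g i + g j) := by rw [add_zero, ← add_assoc, ← hv]; exact h
      exact (add_left_cancel this).symm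
    apply hij
    apply hinj
    have h2 : g i + g j + g j = 0 + g j := by rw [h1]
    rwa [add_two, zero_add] at h2
  -- the column of `v`
  set w : E m → ℂ := fun x => amat s x v with hw
  have hbound := R2.CHerm.norm_bound (amat s) (amat_herm s) c hc w
  have hrow : ∑ x, ‖w x‖ ^ 2 = 9 := by
    have h1 : ∀ x, ‖w x‖ ^ 2 = (open Classical in if (cay g hg).Adj v x then (1 : ℝ) else 0) := by
      intro x
      simp only [hw, amat, Matrix.of_apply]
      by_cases h : (cay g hg).Adj x v
      · rw [if_pos h, if_pos h.symm, s.norm_one _ _ h]; norm_num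
      · rw [if_neg h, if_neg (fun h' => h h'.symm)]; norm_num
    rw [Finset.sum_congr rfl (fun x _ => h1 x), sum_nbr hinj v (fun _ => (1 : ℝ))]
    simp
  have hmul : ∀ x, (amat s).mulVec w x = ∑ k, sv s x k * w (x + g k) := by
    intro x
    rw [← amat_mul s hinj]
    rfl
  have hwadj : ∀ x k, w (x + g k) = (open Classical in
      if (cay g hg).Adj (x + g k) v then s.val (x + g k) v else 0) := by
    intro x k
    simp only [hw, amat, Matrix.of_apply]
  have hvv : (amat s).mulVec w v = 9 := by
    rw [hmul]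
    have h1 : ∀ k, sv s v k * w (v + g k) = 1 := by
      intro k
      have hadj : (cay g hg).Adj v (v + g k) := adj_add v k
      rw [hwadj, if_pos hadj.symm, s.conj _ _ hadj]
      show s.val v (v + g k) * star (s.val v (v + g k)) = 1
      have h2 := s.norm_one _ _ hadj
      rw [Complex.star_def, Complex.mul_conj, Complex.normSq_eq_norm_sq, h2]
      norm_num
    rw [Finset.sum_congr rfl (fun k _ => h1 k)]
    simp
  have huv' : (amat s).mulVec w u
      = sv s u i * sv s (u + g i) j + sv s u j * sv s (u + g j) i := by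
    rw [hmul]
    have hvj : v = u + g j + g i := by rw [hv]; abel
    rw [Finset.sum_eq_add i j hij]
    · congr 1
      · rw [hwadj, if_pos (by rw [hv]; exact adj_add _ _)]
        rfl
      · rw [hwadj, if_pos (by rw [hvj]; exact adj_add _ _), hvj]
        rfl
    · intro k _ hk
      rw [hwadj, if_neg, mul_zero]
      rintro ⟨l, hl⟩
      have h1 : g i + g j = g k + g l := by
        have : u + (g i + g j) = u + (g k + g l) := by
          rw [← add_assoc, ← add_assoc, ← hv]; exact hl
        exact add_left_cancel this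
      rcases hpair i j k l hij h1 with ⟨h2, _⟩ | ⟨h2, _⟩
      · exact hk.1 h2
      · exact hk.2 h2
    · intro h; exact absurd (mem_univ _) h
    · intro h; exact absurd (mem_univ _) h
  have hlow : ‖(amat s).mulVec w v‖ ^ 2 + ‖(amat s).mulVec w u‖ ^ 2
      ≤ ∑ x, ‖(amat s).mulVec w x‖ ^ 2 := by
    rw [← Finset.sum_pair (f := fun x => ‖(amat s).mulVec w x‖ ^ 2) (Ne.symm huv)]
    exact Finset.sum_le_sum_of_subset_of_nonneg (Finset.subset_univ _)
      (fun x _ _ => sq_nonneg _)
  rw [hvv, huv'] at hlow
  rw [hrow] at hbound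
  have h9 : ‖(9 : ℂ)‖ ^ 2 = 81 := by
    have : ‖(9 : ℂ)‖ = 9 := by simp
    rw [this]; norm_num
  rw [h9] at hlow
  linarith

end cay

/-! ### The base graph -/

/-- nine generators of `(Z/2)^7` with `g_0+…+g_5 = 0` and `g_3+…+g_8 = 0` -/
def gb : Fin 9 → E 7 :=
  ![![1, 0, 0, 0, 0, 0, 0], ![0, 1, 0, 0, 0, 0, 0], ![0, 0, 1, 0, 0, 0, 0], ![0, 0, 0, 1, 0, 0, 0],
    ![0, 0, 0, 0, 1, 0, 0], ![1, 1, 1, 1, 1, 0, 0], ![0, 0, 0, 0, 0, 1, 0], ![0, 0, 0, 0, 0, 0, 1],
    ![1, 1, 1, 0, 0, 1, 1]]

theorem gb_ne : ∀ i, gb i ≠ 0 := by decide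

theorem gb_inj : Function.Injective gb := by decide

theorem gb_pair : ∀ i j k l : Fin 9, i ≠ j → gb i + gb j = gb k + gb l →
    (k = i ∧ l = j) ∨ (k = j ∧ l = i) := by
  decide +kernel

/-- the base graph -/
abbrev base : SimpleGraph (E 7) := cay gb gb_ne

/-- the bipartition sign -/
noncomputable def chi (x : E 7) : ℂ := if ∑ i, x i = 0 then 1 else -1

theorem chi_add (x : E 7) (i : Fin 9) : chi (x + gb i) = -chi x := by
  have h1 : ∑ k, (x + gb i) k = ∑ k, x k + 1 := by
    have h2 : ∀ i, ∑ k, gb i k = 1 := by decide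
    simp only [Pi.add_apply]
    rw [Finset.sum_add_distrib, h2]
  unfold chi
  rw [h1]
  generalize ∑ k, x k = a
  have h3 : a = 0 ∨ a = 1 := by revert a; decide
  rcases h3 with h | h
  · subst h; simp
  · subst h
    have : (1 : ZMod 2) + 1 = 0 := by decide
    simp [this]

theorem chi_ne (x : E 7) : chi x ≠ 0 := by
  unfold chi
  split_ifs <;> norm_num

theorem flip (s : Potential base) {μ : ℝ} (hμ : μ ∈ eigs s) : 18 - μ ∈ eigs s := by
  obtain ⟨f, hf, h⟩ := hμ
  refine ⟨fun x => chi x * f x, ?_, fun x => ?_⟩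
  · intro h0
    apply hf
    funext x
    have := congrFun h0 x
    simpa [chi_ne] using this
  · have h1 := h x
    rw [lap_eq s gb_inj] at h1 ⊢
    have h2 : ∀ i, sv s x i * (chi (x + gb i) * f (x + gb i))
        = -chi x * (sv s x i * f (x + gb i)) := by
      intro i
      rw [chi_add]; ring
    rw [Finset.sum_congr rfl (fun i _ => h2 i), ← Finset.mul_sum]
    push_cast
    linear_combination (-chi x) * h1

theorem lam1_base (s : Potential base) : lam1 s ≤ 6 - 1 / 20000 := by
  by_contra hcon
  push Not at hcon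
  have hE : ∀ μ ∈ eigs s, 6 - 1 / 20000 < μ := fun μ hμ =>
    lt_of_lt_of_le hcon (csInf_le (eigs_bddBelow s gb_inj) hμ)
  have hc : ∀ i, |(amat_herm s).eigenvalues i| ≤ 3 + 1 / 20000 := by
    intro i
    have h1 := eig_mem s gb_inj i
    have h2 := hE _ h1
    have h3 := hE _ (flip s h1)
    rw [abs_le]
    constructor <;> linarith
  have hδ : ∀ u i j, i ≠ j →
      ‖sv s u i * sv s (u + gb i) j + sv s u j * sv s (u + gb j) i‖ ≤ 3 / 50 := by
    intro u i j hij
    have h := near s gb_inj gb_pair _ hc u i j hij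
    have h0 := norm_nonneg (sv s u i * sv s (u + gb i) j + sv s u j * sv s (u + gb j) i)
    by_contra h1
    push Not at h1
    have h2 : (3 / 50 : ℝ) ^ 2
        < ‖sv s u i * sv s (u + gb i) j + sv s u j * sv s (u + gb j) i‖ ^ 2 :=
      pow_lt_pow_left₀ h1 (by norm_num) (by norm_num)
    norm_num at h h2
    linarith
  have hmove := moveWord s (3 / 50) hδ [0, 1, 2, 3, 4, 5] [3, 4, 5, 6, 7, 8] [] 0
  have htot : tot [0, 1, 2, 3, 4, 5] [3, 4, 5, 6, 7, 8] = 33 := by decide
  rw [htot, List.append_nil, List.append_nil, hol_append, hol_append] at hmove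
  have hs1 : (([0, 1, 2, 3, 4, 5] : List (Fin 9)).map gb).sum = 0 := by decide
  have hs2 : (([3, 4, 5, 6, 7, 8] : List (Fin 9)).map gb).sum = 0 := by decide
  rw [hs1, hs2, add_zero] at hmove
  set a := hol s 0 [0, 1, 2, 3, 4, 5] with ha
  set b := hol s 0 [3, 4, 5, 6, 7, 8] with hb
  have e1 : a * b - (-1) ^ 33 * (b * a) = 2 * (a * b) := by ring
  rw [e1, norm_mul, norm_mul, ha, hb, hol_norm, hol_norm] at hmove
  norm_num at hmove

/-- the trivial potential -/
noncomputable def trivialPot {V : Type} (G : SimpleGraph V) : Potential G where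
  val := fun _ _ => 1
  norm_one := fun _ _ _ => norm_one
  conj := fun _ _ _ => by simp

theorem nu_base : nu base ≤ 6 - 1 / 20000 := by
  have : Nonempty (Potential base) := ⟨trivialPot base⟩
  refine csSup_le (Set.range_nonempty _) ?_
  rintro _ ⟨s, rfl⟩
  exact lam1_base s

/-! ### The cube -/

/-- the standard generators -/
def gc : Fin 9 → E 9 := fun i => Pi.single i 1

theorem gc_ne (i : Fin 9) : gc i ≠ 0 := by
  intro h
  have := congrFun h i
  simp [gc] at this

theorem gc_inj : Function.Injective gc := by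
  intro i j h
  by_contra hij
  have := congrFun h i
  simp [gc, Pi.single_apply, hij] at this

/-- the hypercube graph of dimension nine -/
abbrev cube : SimpleGraph (E 9) := cay gc gc_ne

/-- the sign of a bit -/
def sg (a : ZMod 2) : ℝ := if a = 0 then 1 else -1

/-- the sign attached to the edge in direction `i` at `x` -/
noncomputable def ph (x : E 9) (i : Fin 9) : ℝ := ∏ k ∈ univ.filter (fun k => k < i), sg (x k)

theorem sg_sq (a : ZMod 2) : sg a * sg a = 1 := by
  unfold sg; split_ifs <;> norm_num

theorem ph_sq (x : E 9) (i : Fin 9) : ph x i * ph x i = 1 := by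
  unfold ph
  rw [← Finset.prod_mul_distrib]
  exact Finset.prod_eq_one fun k _ => sg_sq _

theorem sg_add (a : ZMod 2) : sg (a + 1) = -sg a := by
  have h : a = 0 ∨ a = 1 := by revert a; decide
  rcases h with h | h
  · subst h; simp [sg]
  · subst h
    have : (1 : ZMod 2) + 1 = 0 := by decide
    simp [sg, this]

theorem ph_add_ge (x : E 9) (i j : Fin 9) (h : i ≤ j) : ph (x + gc j) i = ph x i := by
  unfold ph
  refine Finset.prod_congr rfl fun k hk => ?_
  have hkj : k ≠ j := by
    intro e
    subst e
    exact absurd (lt_of_lt_of_le (mem_filter.1 hk).2 h) (lt_irrefl _)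
  simp [gc, Pi.single_apply, hkj]

theorem ph_add_lt (x : E 9) (i j : Fin 9) (h : j < i) : ph (x + gc j) i = -ph x i := by
  unfold ph
  have hj : j ∈ univ.filter (fun k => k < i) := by simp [h]
  rw [← Finset.mul_prod_erase _ _ hj, ← Finset.mul_prod_erase (univ.filter (fun k => k < i))
    (fun k => sg (x k)) hj]
  have h1 : (x + gc j) j = x j + 1 := by simp [gc]
  rw [h1, sg_add, neg_mul]
  congr 2
  refine Finset.prod_congr rfl fun k hk => ?_
  have hkj : k ≠ j := (mem_erase.1 hk).1
  simp [gc, Pi.single_apply, hkj]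

open Classical in
/-- the potential on the cube with flux `π` through every square -/
noncomputable def cubePot : Potential cube where
  val := fun x y => if h : ∃ i, y = x + gc i then ((ph x h.choose : ℝ) : ℂ) else 0
  norm_one := by
    rintro x y h
    have h' : ∃ i, y = x + gc i := h
    rw [dif_pos h', Complex.norm_real, Real.norm_eq_abs]
    have := ph_sq x h'.choose
    rw [← abs_mul_abs_self] at this
    nlinarith [abs_nonneg (ph x h'.choose)]
  conj := by
    rintro x y h
    have h1 : ∃ i, y = x + gc i := h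
    have h2 : ∃ i, x = y + gc i := h.symm
    rw [dif_pos h1, dif_pos h2]
    obtain ⟨i1, hi1⟩ : ∃ i, i = h1.choose := ⟨_, rfl⟩
    obtain ⟨i2, hi2⟩ : ∃ i, i = h2.choose := ⟨_, rfl⟩
    have a1 : y = x + gc i1 := by rw [hi1]; exact h1.choose_spec
    have a2 : x = y + gc i2 := by rw [hi2]; exact h2.choose_spec
    rw [← hi1, ← hi2]
    clear hi1 hi2
    have e1 : i2 = i1 := by
      apply gc_inj
      have h3 : x + gc i2 = x + gc i1 := by
        calc x + gc i2 = (y + gc i2) + gc i2 := by rw [← a2]
          _ = y := add_two _ _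
          _ = x + gc i1 := a1
      exact add_left_cancel h3
    have e2 : ph y i1 = ph x i1 := by
      rw [a1]
      exact ph_add_ge x _ _ le_rfl
    rw [e1, e2]
    simp

theorem sv_cube (x : E 9) (i : Fin 9) : sv cubePot x i = ((ph x i : ℝ) : ℂ) := by
  classical
  have h : ∃ j, x + gc i = x + gc j := ⟨i, rfl⟩
  show (if h : ∃ j, x + gc i = x + gc j then ((ph x h.choose : ℝ) : ℂ) else 0) = _
  rw [dif_pos h]
  have : h.choose = i := by
    apply gc_inj
    exact (add_left_cancel h.choose_spec).symm
  rw [this]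

theorem anti (x : E 9) (i j : Fin 9) (hij : i ≠ j) :
    ph x i * ph (x + gc i) j = -(ph x j * ph (x + gc j) i) := by
  rcases lt_or_gt_of_ne hij with h | h
  · rw [ph_add_lt x j i h, ph_add_ge x i j h.le]; ring
  · rw [ph_add_ge x j i h.le, ph_add_lt x i j h]; ring

theorem eig_cube {μ : ℝ} (hμ : μ ∈ eigs cubePot) : 6 ≤ μ := by
  obtain ⟨f, hf, h⟩ := hμ
  have h1 : ∀ x, ∑ i, ((ph x i : ℝ) : ℂ) * f (x + gc i) = ((9 - μ : ℝ) : ℂ) * f x := by
    intro x
    have := h x
    rw [lap_eq cubePot gc_inj] at this
    simp only [sv_cube] at this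
    push_cast
    linear_combination -this
  have h2 : ∀ x, ((9 - μ : ℝ) : ℂ) ^ 2 * f x = 9 * f x := by
    intro x
    have e1 : ((9 - μ : ℝ) : ℂ) ^ 2 * f x
        = ∑ i, ∑ j, ((ph x i * ph (x + gc i) j : ℝ) : ℂ) * f (x + gc i + gc j) := by
      calc ((9 - μ : ℝ) : ℂ) ^ 2 * f x = ((9 - μ : ℝ) : ℂ) * (((9 - μ : ℝ) : ℂ) * f x) := by ring
        _ = ∑ i, ((ph x i : ℝ) : ℂ) * (((9 - μ : ℝ) : ℂ) * f (x + gc i)) := by
            rw [← h1 x, Finset.mul_sum]
            refine Finset.sum_congr rfl fun i _ => ?_
            ring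
        _ = _ := by
            refine Finset.sum_congr rfl fun i _ => ?_
            rw [← h1 (x + gc i), Finset.mul_sum]
            refine Finset.sum_congr rfl fun j _ => ?_
            push_cast
            ring
    set F : Fin 9 → Fin 9 → ℂ :=
      fun i j => ((ph x i * ph (x + gc i) j : ℝ) : ℂ) * f (x + gc i + gc j) with hF
    have e2 : ∑ i, ∑ j, F i j = ∑ i, ∑ j, F j i := Finset.sum_comm
    have e3 : ∀ i j, F i j + F j i = if i = j then 2 * f x else 0 := by
      intro i j
      by_cases hij : i = j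
      · subst hij
        rw [if_pos rfl, hF]
        simp only
        rw [ph_add_ge x i i le_rfl, ph_sq, add_two]
        push_cast
        ring
      · rw [if_neg hij, hF]
        simp only
        rw [anti x i j hij, add_right_comm x (gc j) (gc i)]
        push_cast
        ring
    have e4 : 2 * ∑ i, ∑ j, F i j = 18 * f x := by
      calc 2 * ∑ i, ∑ j, F i j = ∑ i, ∑ j, F i j + ∑ i, ∑ j, F j i := by rw [← e2]; ring
        _ = ∑ i, ∑ j, (F i j + F j i) := by
            rw [← Finset.sum_add_distrib]
            refine Finset.sum_congr rfl fun i _ => ?_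
            rw [← Finset.sum_add_distrib]
        _ = ∑ i : Fin 9, ∑ j : Fin 9, (if i = j then 2 * f x else 0) := by
            refine Finset.sum_congr rfl fun i _ => Finset.sum_congr rfl fun j _ => e3 i j
        _ = 18 * f x := by
            simp only [Finset.sum_ite_eq, Finset.mem_univ, if_true, Finset.sum_const,
              Finset.card_univ, Fintype.card_fin]
            rw [nsmul_eq_mul]
            push_cast
            ring
    rw [e1]
    linear_combination e4 / 2
  obtain ⟨x, hx⟩ := Function.ne_iff.1 hf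
  have h3 := h2 x
  have h4 : ((9 - μ : ℝ) : ℂ) ^ 2 = 9 := mul_right_cancel₀ hx h3
  have h5 : (9 - μ) ^ 2 = 9 := by exact_mod_cast h4
  nlinarith

theorem nu_cube : 6 ≤ nu cube := by
  have h1 : 6 ≤ lam1 cubePot := le_csInf (eigs_nonempty cubePot gc_inj) (fun μ hμ => eig_cube hμ)
  have h2 : BddAbove (Set.range fun s : Potential cube => lam1 s) := by
    refine ⟨18, ?_⟩
    rintro _ ⟨s, rfl⟩
    exact lam1_le s gc_inj
  exact h1.trans (le_csSup h2 ⟨cubePot, rfl⟩)

/-! ### The covering map -/

/-- the covering map -/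
def pr (x : E 9) : E 7 := ∑ i, x i • gb i

theorem pr_add (x y : E 9) : pr (x + y) = pr x + pr y := by
  unfold pr
  rw [← Finset.sum_add_distrib]
  refine Finset.sum_congr rfl fun i _ => ?_
  rw [Pi.add_apply, add_smul]

theorem pr_gc (i : Fin 9) : pr (gc i) = gb i := by
  unfold pr gc
  rw [Finset.sum_eq_single i]
  · simp
  · intro j _ hj
    simp [Pi.single_apply, hj]
  · intro h; exact absurd (mem_univ _) h

theorem pr_surj : Function.Surjective pr := by
  intro y
  refine ⟨![y 0, y 1, y 2, y 3, y 4, 0, y 5, y 6, 0], ?_⟩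
  funext j
  fin_cases j <;> simp [pr, gb, Fin.sum_univ_succ]

theorem lift : IsLift cube base pr where
  surj := pr_surj
  hom := by
    rintro x y ⟨i, rfl⟩
    exact ⟨i, by rw [pr_add, pr_gc]⟩
  bij := by
    intro x
    refine ⟨?_, ?_, ?_⟩
    · rintro y ⟨i, rfl⟩
      exact ⟨i, by rw [pr_add, pr_gc]⟩
    · rintro y ⟨i, rfl⟩ z ⟨j, rfl⟩ h
      rw [pr_add, pr_add, pr_gc, pr_gc] at h
      rw [gb_inj (add_left_cancel h)]
    · rintro y ⟨i, rfl⟩
      exact ⟨x + gc i, ⟨i, rfl⟩, by rw [pr_add, pr_gc]⟩

theorem cube_conn : cube.Connected := by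
  have h0 : ∀ (l : Finset (Fin 9)) (x : E 9), cube.Reachable 0 (∑ i ∈ l, x i • gc i) := by
    intro l x
    induction l using Finset.induction_on with
    | empty => simp
    | insert i l hi ih =>
      rw [Finset.sum_insert hi]
      have h : x i = 0 ∨ x i = 1 := by generalize x i = a; revert a; decide
      rcases h with h | h
      · rw [h, zero_smul, zero_add]; exact ih
      · rw [h, one_smul]
        refine ih.trans (SimpleGraph.Adj.reachable ?_)
        exact ⟨i, add_comm _ _⟩
  have h1 : ∀ x : E 9, cube.Reachable 0 x := by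
    intro x
    have h2 := h0 univ x
    have h3 : ∑ i, x i • gc i = x := by
      funext j
      simp [gc, Pi.single_apply]
    rwa [h3] at h2
  rw [SimpleGraph.connected_iff]
  exact ⟨fun x y => (h1 x).symm.trans (h1 y), ⟨0⟩⟩

theorem base_conn : base.Connected := by
  let φ : cube →g base := ⟨pr, fun {x y} h => lift.hom x y h⟩
  rw [SimpleGraph.connected_iff]
  refine ⟨fun x y => ?_, ⟨0⟩⟩
  obtain ⟨x', rfl⟩ := pr_surj x
  obtain ⟨y', rfl⟩ := pr_surj y
  exact (cube_conn.preconnected x' y').map φ

/-- **Q1 of MP_cbccc2_co: yes.** There are a finite connected graph `G` and a finite connected lift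
`H` of `G` (the cube `Q_9` covering a quotient with 128 vertices) with `ν(H) > ν(G)`. -/
theorem result : ∃ (V W : Type) (_ : Fintype V) (_ : Fintype W) (G : SimpleGraph V)
    (H : SimpleGraph W) (p : W → V), G.Connected ∧ H.Connected ∧ IsLift H G p ∧ nu G < nu H := by
  refine ⟨E 7, E 9, inferInstance, inferInstance, base, cube, pr, base_conn, cube_conn, lift, ?_⟩
  have h1 := nu_base
  have h2 := nu_cube
  linarith

end Pool.Agent.Results.MP_cbccc2_co.CubeLift
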